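import Pool.Agent.R933.Un.Mv

/-!
# Assembly for Poincaré duality groups in unitary groups over polynomial rings

`C` is any class of groups with the closure properties `ClosedE C` which contains the solvable groups.
All this is known for the class of the groups that satisfy the Farrell–Jones conjecture in L-theory (and
K-theory) with coefficients and finite wreath products. `A Γ` is the statement that the assembly map of
the torsion-free group `Γ` is an isomorphism; it holds for the torsion-free groups in that class.

Let `b` be an anisotropic hermitian form (`σ = id`: symmetric bilinear form) of rank at least one over a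
domain `R` with involution `σ`, `2 ≠ 0`, and let `U(S)` be the unitary group of the orthogonal sum of `b`
and a hyperbolic plane over an extension `S` of `R`.

(1) Let `G` be any group of matrices in `U(R[x_i, i ∈ τ])` and `p` a point with coordinates in `R` fixed
by `σ`. If the group of the values at `p` of the elements of `G` is in `C`, then `G` is in `C`.

(2) `U(R[x_i, i ∈ τ])` is in `C` if and only if `U(R)` is in `C`.

(3) Let `S` be a commutative ring graded by the natural numbers with an involution preserving the degrees,
`b` a form with coefficients in degree zero and `D` a field with involution (`2 ≠ 0`) containing `S`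
over which `b` is anisotropic. If `G` is any subgroup of `U(S)` and the group of the parts of degree zero
of the elements of `G` is in `C`, then `G` is in `C`.

In each case the assembly map is an isomorphism for the torsion-free subgroups of `G`. All subgroups of
`GL_n(k)` are Farrell–Jones groups for `k` algebraic over a global field. So Q1 holds for all Poincaré
duality groups in `U(k[x_i, i ∈ τ])`, for instance in the orthogonal groups of the forms
`x₁² + … + x_n² + 2uv` over polynomial rings over a real number field.

Outline of the proof, for the polynomial ring `K[T]` over a field.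

* For every isotropic line `l` of the form over `K` let `U_l` be the group of the isometries over `K[T]`
  that are the identity at `T = 0` and fix `l` pointwise. For the line of the first basis vector `e` of the
  hyperbolic plane this is the group of the Eichler transformations `E(w, z)`, `w(0) = 0`, `z(0) = 0`,
  `z + σ z + b(w, w) = 0`. It is nilpotent of class at most two.
* The kernel of `U(K[T]) → U(K)`, `T ↦ 0`, is generated by the groups `U_l`. This follows from a
  Euclidean algorithm in the first column: modulo the coefficient `B` of `f` the other coefficients can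
  be reduced, since the quotient of the coefficient of `e` by `B` is skew by comparison of degrees.
* The groups `U_l` generate their free product: `1 ≠ u ∈ U_l` maps every vector over `K[T]` whose leading
  vector is an isotropic vector outside `l` to a vector of larger degree with leading vector in `l`.
* `U(K)` permutes the groups `U_l`. So the preimage of every subgroup of `U(K)` in `C` is in `C`, by the
  theorem on extensions by free products whose factors are permuted (R773), since the groups `U_l ⟨q⟩`
  with `q l = l` are solvable.
* Domains with `b` anisotropic embed in a field with `b` anisotropic, polynomial rings in several variables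
  and graded rings embed in `K[T]` by `a ↦ ∑ a_n Tⁿ`, and `b` stays anisotropic over polynomial rings.
-/

set_option autoImplicit false

namespace Pool.Agent.Results.MP_c13a79_gt.IsotropicForms

open Pool.Agent.Y110.FJ Pool.Agent.R933.Un

/-- `Γ` is torsion-free -/
def TorsionFree (Γ : Type) [Group Γ] : Prop := ∀ g : Γ, ∀ k : ℕ, 0 < k → g ^ k = 1 → g = 1

/-- `G` is in `C`, and the torsion-free groups that embed in `G` have the property `A` -/
def InClass (C A : ∀ (G : Type) [Group G], Prop) (G : Type) [Group G] : Prop :=
  C G ∧ ∀ (Γ : Type) [Group Γ], TorsionFree Γ → ∀ j : Γ →* G, Function.Injective j → A Γ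

theorem inClass {C A : ∀ (G : Type) [Group G], Prop} (hC : ClosedE C)
    (hA : ∀ (Γ : Type) [Group Γ], TorsionFree Γ → C Γ → A Γ) {G : Type} [Group G] (h : C G) :
    InClass C A G :=
  ⟨h, fun Γ _ hΓ j hj => hA Γ hΓ (hC.base.of_injective _ _ j hj h)⟩

/-- the unitary group of `b ⊥ H` over the polynomials -/
noncomputable abbrev UP {ι R : Type} [Fintype ι] [DecidableEq ι] [CommRing R] (τ : Type) (σ : R →+* R)
    (b : Matrix ι ι R) : Subgroup (Matrix (Ix ι) (Ix ι) (MvPolynomial τ R))ˣ :=
  UG (MvPolynomial.map σ) (b.map (MvPolynomial.C : R →+* MvPolynomial τ R))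

/-- groups of isometries over polynomial rings over domains, values at a point -/
def Values (C A : ∀ (G : Type) [Group G], Prop) : Prop :=
  ∀ (ι R : Type) [Fintype ι] [DecidableEq ι] [Nonempty ι] [CommRing R] [IsDomain R]
    (σ : R →+* R) (b : Matrix ι ι R), Herm σ b → An σ b → (2 : R) ≠ 0 →
    ∀ (τ : Type) (p : τ → R), (∀ i, σ (p i) = p i) → ∀ G ≤ UP τ σ b,
      C ↥(G.map (mp (MvPolynomial.eval p))) → InClass C A ↥G

/-- the whole groups -/
def Whole (C : ∀ (G : Type) [Group G], Prop) : Prop :=
  ∀ (ι R : Type) [Fintype ι] [DecidableEq ι] [Nonempty ι] [CommRing R] [IsDomain R]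
    (σ : R →+* R) (b : Matrix ι ι R), Herm σ b → An σ b → (2 : R) ≠ 0 →
    ∀ τ : Type, C ↥(UP τ σ b) ↔ C ↥(UG σ b)

/-- groups of isometries over graded rings, parts of degree zero -/
def Graded (C A : ∀ (G : Type) [Group G], Prop) : Prop :=
  ∀ (ι S D : Type) [Fintype ι] [DecidableEq ι] [Nonempty ι] [CommRing S] [Field D]
    (𝒜 : ℕ → AddSubgroup S) [GradedRing 𝒜] (θ : S →+* D) (σ : S →+* S) (σD : D →+* D)
    (b : Matrix ι ι S), Function.Injective θ → (∀ x, θ (σ x) = σD (θ x)) →
    (∀ n, ∀ x ∈ 𝒜 n, σ x ∈ 𝒜 n) → (∀ i j, b i j ∈ 𝒜 0) →
    Herm σD (b.map θ) → An σD (b.map θ) → (2 : D) ≠ 0 →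
    ∀ G ≤ UG σ b, C ↥(G.map (mp (GradedRing.projZeroRingHom 𝒜))) → InClass C A ↥G

theorem result (C : ∀ (G : Type) [Group G], Prop) (hC : ClosedE C) (hS : HasSolvable C)
    (A : ∀ (Γ : Type) [Group Γ], Prop)
    (hA : ∀ (Γ : Type) [Group Γ], TorsionFree Γ → C Γ → A Γ) :
    Values C A ∧ Whole C ∧ Graded C A := by
  refine ⟨?_, ?_, ?_⟩
  · intro ι R _ _ _ _ _ σ b h han h2 τ p hp G hG hCG
    exact inClass hC hA (main_mv hC hS h han h2 τ p hp G hG hCG)
  · intro ι R _ _ _ _ _ σ b h han h2 τ
    exact main_mv_iff hC hS h han h2 τ
  · intro ι S D _ _ _ _ _ 𝒜 _ θ σ σD b hθ hσ hσg hb h han h2 G hG hCG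
    exact inClass hC hA (main_graded 𝒜 θ hC hS hθ hσ hσg hb h han h2 G hG hCG)

end Pool.Agent.Results.MP_c13a79_gt.IsotropicForms
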