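import Pool.Agent.R472.GridLReg

set_option autoImplicit false

/-! # Quadratic forms over integral group rings with an orientation character and the triangular
lattice

Let `π` be a group (for instance a Poincaré duality group) with generating set `S` and orientation
character `w`, and let `ℤπ` have the involution `g ↦ w(g) g⁻¹`. Every `ε`-quadratic form over `ℤπ`
becomes, after adding hyperbolic planes, isometric to a form whose basis vectors are points of the
triangular lattice, with entries zero except between neighbouring points, nonzero entries `± s`, and at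
most three partners for each basis vector. If `π` is torsion-free (as Poincaré duality groups are), a
nonsingular form whose symmetrization has at most two nonzero entries in each row, all of them monomials
`n g` (`n` any integer, at any positions, the diagonal included), becomes a form over `ℤ` when the basis
vectors are multiplied by suitable elements of `π`.

Outline of (1). A program of elementary matrices between neighbouring wires computes
`(1, 0; ψ, 1)`; let `v` run over its variables, `(1 - N) F = C` be its equations, and `D_x F = 1`,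
`D_y F = ψ` its outputs. On `ℤπⁿ ⊕ ℤπ^V ⊕ ℤπ^V` the form with `φ(λ, x) = - C`, `φ(λ, z) = 1 - N`,
`φ(z, z) = K = D_x* D_y` is the image of `ψ ⊕ (hyperbolic planes)` under the isometry
`E = (1, ε F* K*, -F*; 0, 1 - N, 0; 0, K, 1)`, since `F* K F = ψ`; this works for every involution.

Outline of (2). The graph of `λ = φ + εφ*` is a disjoint union of paths and cycles (and loops, where
the group element is `1`). Let `c` be the product of the group elements around a cycle of length `m`.
The column of `λ⁻¹` at a vertex of the cycle is a solution `x` of `λ x = e`; reading `λ x = e` along the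
lift of the cycle to a line gives a finite subset `A` of `π` (a translate of the support of a coordinate
of `x`) such that `A` and `C A` agree outside `C`, with `C = c` for even and `C = c²` for odd `m`. If
`c ≠ 1`, then `C` has infinite order, counting gives `A = C A`, so `A` is empty, and then `λ x = e` fails
at the vertex. So `c = 1`, and the group elements of the entries of `λ` are a coboundary. The part of
the quadratic form away from `1 ∈ π` is then of the form `χ - εχ*`, since no `g ≠ 1` is equal to
`g⁻¹`. -/

namespace Pool.Agent.Results.MP_c13a79_gt.LatticeForms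

open Matrix

section defs

variable {π : Type} [Group π]

/-- the involution `g ↦ w(g) g⁻¹` of `ℤπ` -/
noncomputable def bar (w : π →* ℤˣ) (x : MonoidAlgebra ℤ π) : MonoidAlgebra ℤ π :=
  ∑ g ∈ x.coeff.support, MonoidAlgebra.single g⁻¹ ((w g : ℤ) * x.coeff g)

/-- the adjoint (conjugate transpose) of a matrix over `ℤπ` -/
noncomputable def adjoint (w : π →* ℤˣ) {κ μ : Type} (A : Matrix κ μ (MonoidAlgebra ℤ π)) :
    Matrix μ κ (MonoidAlgebra ℤ π) :=
  Matrix.of fun j i => bar w (A i j)

/-- the `ε`-symmetric form `λ = ψ + εψ*` of the `ε`-quadratic form `ψ` -/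
noncomputable def symmetrization (w : π →* ℤˣ) {κ : Type} (ε : ℤ)
    (ψ : Matrix κ κ (MonoidAlgebra ℤ π)) : Matrix κ κ (MonoidAlgebra ℤ π) :=
  ψ + ε • adjoint w ψ

/-- neighbouring points of the triangular lattice: the difference is `± (1, 0)`, `± (0, 1)` or
`± (1, 1)` -/
def Neighbours (a b : ℤ × ℤ) : Prop :=
  b - a = (1, 0) ∨ a - b = (1, 0) ∨ b - a = (0, 1) ∨ a - b = (0, 1) ∨ b - a = (1, 1) ∨
    a - b = (1, 1)

/-- The basis vectors of the form `φ` are at different points of the triangular lattice, entries are
zero except between neighbouring points, nonzero entries are `± s` with `s = 1`, `s ∈ S` or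
`s⁻¹ ∈ S`, at most one of `φ i j` and `φ j i` is not zero (so the diagonal is zero), and each basis
vector is paired nontrivially with at most three others. -/
def OnLattice (S : Set π) {κ : Type} (φ : Matrix κ κ (MonoidAlgebra ℤ π)) : Prop :=
  ∃ pos : κ → ℤ × ℤ, Function.Injective pos ∧ (∀ i j, φ i j ≠ 0 → Neighbours (pos i) (pos j)) ∧
    (∀ i j, φ i j ≠ 0 → φ j i = 0) ∧
    (∀ i j, φ i j = 0 ∨ ∃ s : π, (s = 1 ∨ s ∈ S ∨ s⁻¹ ∈ S) ∧
      (φ i j = MonoidAlgebra.single s 1 ∨ φ i j = MonoidAlgebra.single s (-1))) ∧
    ∀ i, {j | φ i j ≠ 0 ∨ φ j i ≠ 0}.ncard ≤ 3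

/-- The symmetrization of `φ` has at most two nonzero entries in each row (the diagonal is counted),
and all its nonzero entries are monomials `n g`, with `g ∈ π` and `n` any integer. -/
def AtMostTwo (w : π →* ℤˣ) {κ : Type} (ε : ℤ) (φ : Matrix κ κ (MonoidAlgebra ℤ π)) : Prop :=
  (∀ i, {j | symmetrization w ε φ i j ≠ 0}.ncard ≤ 2) ∧
    ∀ i j, ∃ (g : π) (n : ℤ), symmetrization w ε φ i j = MonoidAlgebra.single g n

/-- isometry of `ε`-quadratic forms (matrices modulo the matrices `χ - εχ*`) -/
def Isometric (w : π →* ℤˣ) {κ : Type} [Fintype κ] [DecidableEq κ] (ε : ℤ)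
    (ψ ψ' : Matrix κ κ (MonoidAlgebra ℤ π)) : Prop :=
  ∃ E χ : Matrix κ κ (MonoidAlgebra ℤ π),
    IsUnit E ∧ E * ψ * adjoint w E = ψ' + (χ - ε • adjoint w χ)

/-- the sum of hyperbolic planes, one for each element of `ν` -/
noncomputable def hyperbolic (ν : Type) [DecidableEq ν] :
    Matrix (ν ⊕ ν) (ν ⊕ ν) (MonoidAlgebra ℤ π) := fromBlocks 0 1 0 0

end defs

open TH57.Thr TH6.PF Pool.Agent.R472.Grid Pool.Agent.R472.GridL in
/-- Let `π` be any group with orientation character `w`, `S` a set of generators of `π` and `ε = ±1`.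

(1) Every `ε`-quadratic form over `ℤπ` with the involution `g ↦ w(g) g⁻¹` (nonsingular or not) becomes
after adding hyperbolic planes isometric to a form on the triangular lattice with entries `0` and
`± s`, zero diagonal and at most three partners for each basis vector; this form is nonsingular if the
given one is. (2) Three cannot be replaced by two. Let `π` be torsion-free and `φ` a nonsingular form
whose symmetrization has at most two nonzero entries in each row, all of the form `n g` (`n` any
integer, `g ∈ π`). Then, for suitable `gᵢ ∈ π`, the form `φ` in the basis vectors multiplied by the `gᵢ`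
is the form of a matrix `ψ` over `ℤ` (up to `χ - εχ*`), and `ψ` is nonsingular over `ℤ`. -/
theorem result (π : Type) [Group π] (w : π →* ℤˣ) (S : Set π) (hS : Subgroup.closure S = ⊤)
    (ε : ℤ) (hε : ε = 1 ∨ ε = -1) :
    (∀ (n : ℕ) (ψ : Matrix (Fin n) (Fin n) (MonoidAlgebra ℤ π)),
      ∃ (ν : Type) (_ : Fintype ν) (_ : DecidableEq ν)
        (φ : Matrix (Fin n ⊕ (ν ⊕ ν)) (Fin n ⊕ (ν ⊕ ν)) (MonoidAlgebra ℤ π)),
        OnLattice S φ ∧ Isometric w ε (fromBlocks ψ 0 0 (hyperbolic ν)) φ ∧
        (IsUnit (symmetrization w ε ψ) → IsUnit (symmetrization w ε φ))) ∧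
    ((∀ g : π, ∀ k : ℕ, 0 < k → g ^ k = 1 → g = 1) →
      ∀ (κ : Type) [Fintype κ] [DecidableEq κ] (φ : Matrix κ κ (MonoidAlgebra ℤ π)),
        IsUnit (symmetrization w ε φ) → AtMostTwo w ε φ →
        ∃ (g : κ → π) (ψ : Matrix κ κ ℤ) (χ : Matrix κ κ (MonoidAlgebra ℤ π)),
          IsUnit (ψ + ε • ψᵀ) ∧
          diagonal (fun i => (MonoidAlgebra.single (g i) 1 : MonoidAlgebra ℤ π)) * φ *
              adjoint w (diagonal fun i => (MonoidAlgebra.single (g i) 1 : MonoidAlgebra ℤ π))
            = ψ.map (fun n => MonoidAlgebra.single 1 n) + (χ - ε • adjoint w χ)) := by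
  classical
  have hεε : ε * ε = 1 := by rcases hε with rfl | rfl <;> norm_num
  have hbar : ∀ x : MonoidAlgebra ℤ π, bar w x = sbar w x := by
    intro x
    unfold bar sbar
    refine Finset.sum_congr rfl fun g _ => ?_
    simp
  have hadj : ∀ {κ μ : Type} (A : Matrix κ μ (MonoidAlgebra ℤ π)), adjoint w A = sadj w A := by
    intro κ μ A
    ext1 i j
    exact hbar _
  have hlam : ∀ {κ : Type} [Fintype κ] [DecidableEq κ] (A : Matrix κ κ (MonoidAlgebra ℤ π)),
      symmetrization w ε A = lamL w ε A := by
    intro κ _ _ A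
    unfold symmetrization lamL
    rw [hadj]
  have hT : Subring.closure (∅ : Set ℤ) = ⊤ := by
    rw [eq_top_iff]
    intro x _
    exact intCast_mem _ x
  refine ⟨fun n ψ => ?_, fun htf κ _ _ φ hu h => ?_⟩
  · obtain ⟨ν, i1, i2, φ, ⟨pos, a1, a2, a3, a4, a5⟩, hφ⟩ := tri_form w (one_gensR S ∅)
      (neg_gensR S ∅) (genBy_top _ (closure_gensR S hS ∅ hT)) ε hεε ψ
    refine ⟨ν, i1, i2, φ, ⟨pos, a1, fun i j h => ?_, a3, fun i j => (a4 i j).imp id ?_, a5⟩, ?_,
      fun hu => ?_⟩
    · have h2 := a2 i j h
      unfold TriAdj GridAdj at h2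
      unfold Neighbours
      simp only [Prod.ext_iff, Prod.fst_sub, Prod.snd_sub]
      omega
    · rintro (h | ⟨t, ht, _⟩)
      · exact h
      · exact absurd ht (Set.notMem_empty t)
    · obtain ⟨E, χ, b2⟩ := hφ
      exact ⟨E.val, χ, E.isUnit, by rw [hadj, hadj]; exact b2⟩
    · rw [hlam]
      refine iso_unitL w hεε hφ (unit_stabL w hεε ?_)
      rw [← hlam]
      exact hu
  · unfold AtMostTwo at h
    rw [hlam] at hu h
    obtain ⟨g, ψ, χ, h1, h2⟩ := reg_ext w htf ε hεε φ hu (fun i j h3 => by
      obtain ⟨g, n, h5⟩ := h.2 i j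
      refine ⟨g, n, fun c hc => (mul_eq_zero.1 hc).resolve_left fun h6 => h3 ?_, h5⟩
      rw [h5, h6, MonoidAlgebra.single_zero]) h.1
    refine ⟨g, ψ, χ, ?_, by rw [hadj, hadj]; exact h2⟩
    rwa [conjTranspose_eq_transpose_of_trivial] at h1

end Pool.Agent.Results.MP_c13a79_gt.LatticeForms
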