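import Pool.Agent.R684.PS.Tow

/-!
# Extensions of poly-surface groups in the class of Farrell-Jones groups

`ClosedE C`: the class `C` contains `ℤ`, is closed under subgroups, finite products, free products,
overgroups of finite index and directed colimits, and contains `G` if it contains a quotient `Q` of
`G` and the preimages of all virtually cyclic subgroups of `Q`.

`Good C N`: every group `E` with a normal subgroup isomorphic to `N` and quotient in `C` is in `C`.

`Fat B` (for nonabelian free groups and hyperbolic surface groups): the abelianization has the unique
product property and an element of infinite order, there is a crossed homomorphism from `B` to the
rational group ring of the abelianization which is not zero on the commutator subgroup, and no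
nontrivial finitely generated normal subgroup is contained in the commutator subgroup.

`Tow C` is the smallest class which contains the finitely generated good groups, their finitely
generated overgroups of finite index, extensions of its members by its members with characteristic
kernel, and extensions whose kernel is in the class and whose quotient is finitely generated, good
and fat. In particular it contains all groups with a subnormal series whose factors are finitely
generated nonabelian free groups or hyperbolic surface groups, if their mapping tori are in `C`.

The proof shows that a finitely generated group has only finitely many finitely generated normal
subgroups with fat quotient: they correspond to minimal primes over the annihilator of the Alexander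
module.
-/

set_option autoImplicit false

namespace Pool.Agent.Results.MP_c13a79_gt.PolySurfaceGroups

open Pool.Agent.Y110.FJ (ClosedE)
open Pool.Agent.R684.PS

/-- All groups in `T(C)` are good: every group with such a normal subgroup and quotient in `C` is in
`C`. Nonabelian free groups of finite rank and hyperbolic surface groups are finitely generated and
fat, and they are good if their mapping tori are in `C`. -/
theorem result : ∀ C : ∀ (G : Type) [Group G], Prop, ClosedE C →
    (∀ (G : Type) [Group G], Tow C G → Good C G) ∧
    ∀ n : ℕ, (Group.FG (FreeGroup (Fin (n + 2))) ∧ Fat (FreeGroup (Fin (n + 2))) ∧
        (MtC C (FreeGroup (Fin (n + 2))) → Good C (FreeGroup (Fin (n + 2))))) ∧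
      (Group.FG (Surf (n + 2)) ∧ Fat (Surf (n + 2)) ∧
        (MtC C (Surf (n + 2)) → Good C (Surf (n + 2)))) := by
  intro C hC
  refine ⟨fun G _ h => (tow_good hC h).2, fun n => ⟨⟨?_, ?_, fun h => good_mt hC h⟩,
    surf_fg _, fat_surf n, fun h => good_mt hC h⟩⟩
  · infer_instance
  · exact fat_free (a := (0 : Fin (n + 2))) (b := 1) Fin.zero_ne_one

end Pool.Agent.Results.MP_c13a79_gt.PolySurfaceGroups
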