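import Pool.Agent.R779.FJ.PortsTw

/-!
# Assembly for Poincaré duality groups: extensions by products and graph products with twisting

`C` is any class of groups with the closure properties `ClosedE C`, all of which are known for the
class of the groups that satisfy the Farrell–Jones conjecture in L-theory (and K-theory) with
coefficients and finite wreath products. `A Γ` is the statement that the assembly map of the
torsion-free group `Γ` is an isomorphism; it holds for the torsion-free groups in that class.

Let `N` be a normal subgroup of `G` with `G ⧸ N` in `C`, and let `N` be the graph product of groups
`H v`, `v ∈ V`, over a graph on `V` of any cardinality (for a finite complete graph: the direct product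
of finitely many groups); the groups `H v` need not be isomorphic. Suppose that the conjugation by each
`g ∈ G` permutes the subgroups `H v` by an automorphism of the graph, up to a conjugation by an element
of `N`, and that the subgroup generated by `H v` and `g` is in `C` if `g` normalizes `H v`. Then `G` is
in `C`, and the assembly map is an isomorphism for all torsion-free subgroups of `G`.

If `G` is a Poincaré duality group and the direct product `N` of centreless directly indecomposable
Poincaré duality groups is normal in `G` then the conjugations permute the factors. So Q1 holds for all
Poincaré duality groups `G` which are extensions of a Farrell–Jones group by a finite product of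
torsion-free hyperbolic groups, with arbitrary monodromy, split or not (hyperbolic-by-cyclic groups
satisfy the Farrell–Jones conjecture).

Outline of the proof. By a realization criterion it is enough to realize the conjugation by `g` on a
finite subset of `N` in a group in `C`. Choose a representative in every cycle of the permutation `τ`
of `V` and identify the vertex groups of the cycle with the one of the representative by powers of `g`.
Then a finite part of `τ` with these twists is induced by an automorphism of the graph product of the
representative groups over a finite larger graph, and the semidirect product with `ℤ` is in `C`,
since up to finite index it preserves the vertex groups and then is an amalgamated product of groups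
of the same kind along retracts.
-/

set_option autoImplicit false

namespace Pool.Agent.Results.MP_c13a79_gt.TwistedGraphProducts

open Pool.Agent.Y110.FJ Pool.Agent.R779.FJ Pool.Agent.R779.FJ.Ports

/-- `Γ` is torsion-free -/
def TorsionFree (Γ : Type) [Group Γ] : Prop := ∀ g : Γ, ∀ k : ℕ, 0 < k → g ^ k = 1 → g = 1

theorem result (C : ∀ (G : Type) [Group G], Prop) (hC : ClosedE C)
    (A : ∀ (Γ : Type) [Group Γ], Prop)
    (hA : ∀ (Γ : Type) [Group Γ], TorsionFree Γ → C Γ → A Γ)
    (V : Type) (Λ : SimpleGraph V) (H : V → Type) [∀ v, Group (H v)]
    (G : Type) [Group G] (N : Subgroup G) [N.Normal] (hQ : C (G ⧸ N)) (e : GrP Λ H ≃* N)
    (hact : Permutes e) (hloc : NormalizersIn C e) :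
    C G ∧ ∀ (Γ : Type) [Group Γ], TorsionFree Γ →
      ∀ j : Γ →* G, Function.Injective j → A Γ := by
  have h1 : C G := thmD C hC V Λ H G N hQ e hact hloc
  exact ⟨h1, fun Γ _ hΓ j hj => hA Γ hΓ (hC.base.of_injective _ _ j hj h1)⟩

end Pool.Agent.Results.MP_c13a79_gt.TwistedGraphProducts
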